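import Mathlib

open Matrix

namespace Pool.Agent.Results.MP_0c03d4_ag.Realizable

/-- Vectors in `ℂ³`: homogeneous coordinates of points (when nonzero) and coefficient vectors of lines. -/
abbrev V := Fin 3 → ℂ

/-- Component labels: `inl i` is the line `L_(i+1)`, `inr i` is the conic `C_(i+1)`. -/
abbrev Comp := Fin 4 ⊕ Fin 4

/-- The point `p` lies on the component: `L i · p = 0`, resp. `pᵀ (M i) p = 0`. -/
def On (L : Fin 4 → V) (M : Fin 4 → Matrix (Fin 3) (Fin 3) ℂ) : Comp → V → Prop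
  | Sum.inl i, p => L i ⬝ᵥ p = 0
  | Sum.inr i, p => p ⬝ᵥ (M i *ᵥ p) = 0

/-- Coefficient vector of the tangent line of the component at `p` (half the gradient for a conic). -/
def tang (L : Fin 4 → V) (M : Fin 4 → Matrix (Fin 3) (Fin 3) ℂ) : Comp → V → V
  | Sum.inl i, _ => L i
  | Sum.inr i, p => M i *ᵥ p

/-- The components through each of the nine quadruple points of `W`. -/
def inc : Fin 9 → Finset Comp :=
  ![{.inr 0, .inr 1, .inl 2, .inl 3}, {.inr 0, .inr 1, .inr 2, .inr 3}, {.inr 0, .inr 1, .inr 2, .inr 3},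
    {.inr 0, .inr 1, .inr 2, .inr 3}, {.inl 0, .inl 1, .inr 2, .inr 3}, {.inr 0, .inl 1, .inl 2, .inr 3},
    {.inr 0, .inl 1, .inr 2, .inl 3}, {.inl 0, .inr 1, .inl 2, .inr 3}, {.inl 0, .inr 1, .inr 2, .inl 3}]

abbrev Z := GaussianInt
def Lz : Fin 4 → Fin 3 → Z := ![![⟨1, 0⟩, ⟨0, 0⟩, ⟨0, 0⟩], ![⟨0, 0⟩, ⟨1, 0⟩, ⟨0, 0⟩], ![⟨0, 0⟩, ⟨0, 0⟩, ⟨1, 0⟩], ![⟨1, 0⟩, ⟨1, 0⟩, ⟨1, 0⟩]]
def Mz : Fin 4 → Matrix (Fin 3) (Fin 3) Z := ![!![⟨0, 0⟩, ⟨3, -4⟩, ⟨-3, -4⟩; ⟨3, -4⟩, ⟨6, -8⟩, ⟨0, -10⟩; ⟨-3, -4⟩, ⟨0, -10⟩, ⟨-6, -8⟩], !![⟨8, 0⟩, ⟨4, 0⟩, ⟨8, 4⟩; ⟨4, 0⟩, ⟨0, 0⟩, ⟨3, 4⟩; ⟨8, 4⟩, ⟨3, 4⟩, ⟨6, 8⟩], !![⟨8, 0⟩, ⟨8, -4⟩, ⟨4, 0⟩; ⟨8, -4⟩, ⟨6, -8⟩, ⟨3, -4⟩; ⟨4, 0⟩, ⟨3, -4⟩, ⟨0, 0⟩], !![⟨0, 0⟩, ⟨1, 0⟩, ⟨-1, 0⟩; ⟨1, 0⟩, ⟨0, 0⟩, ⟨0, 2⟩; ⟨-1, 0⟩, ⟨0, 2⟩, ⟨0, 0⟩]]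
def Pz : Fin 9 ⊕ Fin 4 → Fin 3 → Z := Sum.elim ![![⟨1, 0⟩, ⟨-1, 0⟩, ⟨0, 0⟩], ![⟨1, 2⟩, ⟨1, -1⟩, ⟨-3, -1⟩], ![⟨1, -2⟩, ⟨-3, 1⟩, ⟨1, 1⟩], ![⟨-5, 0⟩, ⟨2, 1⟩, ⟨2, -1⟩], ![⟨0, 0⟩, ⟨0, 0⟩, ⟨1, 0⟩], ![⟨1, 0⟩, ⟨0, 0⟩, ⟨0, 0⟩], ![⟨1, 0⟩, ⟨0, 0⟩, ⟨-1, 0⟩], ![⟨0, 0⟩, ⟨1, 0⟩, ⟨0, 0⟩], ![⟨0, 0⟩, ⟨1, 0⟩, ⟨-1, 0⟩]] ![![⟨0, 0⟩, ⟨-2, -1⟩, ⟨1, 2⟩], ![⟨1, -2⟩, ⟨0, 0⟩, ⟨0, 2⟩], ![⟨1, 2⟩, ⟨0, -2⟩, ⟨0, 0⟩], ![⟨-1, -1⟩, ⟨0, 1⟩, ⟨1, 0⟩]]
def cv (v : Fin 3 → Z) : V := fun k => GaussianInt.toComplex (v k)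
def cm (A : Matrix (Fin 3) (Fin 3) Z) : Matrix (Fin 3) (Fin 3) ℂ := A.map GaussianInt.toComplex
def tz : Comp → (Fin 3 → Z) → Fin 3 → Z
  | Sum.inl i, _ => Lz i
  | Sum.inr i, p => Mz i *ᵥ p
def Ind (u v : Fin 3 → Z) : Prop := u 0 * v 1 ≠ u 1 * v 0 ∨ u 0 * v 2 ≠ u 2 * v 0 ∨ u 1 * v 2 ≠ u 2 * v 1
instance (u v : Fin 3 → Z) : Decidable (Ind u v) := by unfold Ind; infer_instance

theorem inj {a b : Z} : GaussianInt.toComplex a = GaussianInt.toComplex b ↔ a = b := GaussianInt.toComplex_inj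

theorem cv_mul (A : Matrix (Fin 3) (Fin 3) Z) (p : Fin 3 → Z) : cm A *ᵥ cv p = cv (A *ᵥ p) := by
  funext k; simp [cm, cv, mulVec, dotProduct, Fin.sum_univ_three]

theorem cv_dot (u p : Fin 3 → Z) : cv u ⬝ᵥ cv p = GaussianInt.toComplex (u ⬝ᵥ p) := by
  simp [cv, dotProduct, Fin.sum_univ_three]

theorem tang_cv (a : Comp) (p : Fin 3 → Z) :
    tang (fun i => cv (Lz i)) (fun i => cm (Mz i)) a (cv p) = cv (tz a p) := by
  rcases a with i | i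
  · rfl
  · exact cv_mul _ _

theorem on_cv (a : Comp) (p : Fin 3 → Z) :
    On (fun i => cv (Lz i)) (fun i => cm (Mz i)) a (cv p) ↔ tz a p ⬝ᵥ p = 0 := by
  rcases a with i | i
  · simp only [On, tz, cv_dot]; rw [← inj, map_zero]
  · simp only [On, tz, cv_mul, cv_dot]; rw [dotProduct_comm, ← inj, map_zero]

theorem li {u v : Fin 3 → Z} (h : Ind u v) : LinearIndependent ℂ ![cv u, cv v] := by
  rw [LinearIndependent.pair_iff]
  intro s t hst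
  have h0 := congrFun hst 0
  have h1 := congrFun hst 1
  have h2 := congrFun hst 2
  simp only [cv, Pi.add_apply, Pi.smul_apply, smul_eq_mul, Pi.zero_apply] at h0 h1 h2
  unfold Ind at h
  simp only [ne_eq, ← inj, map_mul] at h
  rcases h with h | h | h <;> constructor <;> grind

theorem base (x y z i : ℂ) (hi : i * i = -1) (h1 : x * ((3 + -4 * i) * x * y + (-3 + -4 * i) * x * z + (3 + -4 * i) * y * x + (6 + -8 * i) * y * y + (0 + -10 * i) * y * z + (-3 + -4 * i) * z * x + (0 + -10 * i) * z * y + (-6 + -8 * i) * z * z) = 0)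
    (h2 : y * ((8 + 0 * i) * x * x + (4 + 0 * i) * x * y + (8 + 4 * i) * x * z + (4 + 0 * i) * y * x + (3 + 4 * i) * y * z + (8 + 4 * i) * z * x + (3 + 4 * i) * z * y + (6 + 8 * i) * z * z) = 0) :
    (∃ c : ℂ, x = c * (1 + 0 * i) ∧ y = c * (-1 + 0 * i) ∧ z = c * (0 + 0 * i)) ∨ (∃ c : ℂ, x = c * (1 + 2 * i) ∧ y = c * (1 + -1 * i) ∧ z = c * (-3 + -1 * i)) ∨ (∃ c : ℂ, x = c * (1 + -2 * i) ∧ y = c * (-3 + 1 * i) ∧ z = c * (1 + 1 * i)) ∨ (∃ c : ℂ, x = c * (-5 + 0 * i) ∧ y = c * (2 + 1 * i) ∧ z = c * (2 + -1 * i)) ∨ (∃ c : ℂ, x = c * (0 + 0 * i) ∧ y = c * (0 + 0 * i) ∧ z = c * (1 + 0 * i)) ∨ (∃ c : ℂ, x = c * (1 + 0 * i) ∧ y = c * (0 + 0 * i) ∧ z = c * (0 + 0 * i)) ∨ (∃ c : ℂ, x = c * (1 + 0 * i) ∧ y = c * (0 + 0 * i) ∧ z = c * (-1 + 0 * i)) ∨ (∃ c : ℂ, x = c * (0 + 0 * i) ∧ y = c * (1 + 0 * i) ∧ z = c * (0 + 0 * i)) ∨ (∃ c : ℂ, x = c * (0 + 0 * i) ∧ y = c * (1 + 0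 * i) ∧ z = c * (-1 + 0 * i)) := by
  by_cases hx : x = 0
  · have : y * z * (y + z) = 0 := by grind
    rcases mul_eq_zero.1 this with h | h
    · rcases mul_eq_zero.1 h with h | h
      · right; right; right; right; left; exact ⟨z, by grind, by grind, by grind⟩
      · right; right; right; right; right; right; right; left; exact ⟨y, by grind, by grind, by grind⟩
    · right; right; right; right; right; right; right; right; exact ⟨y, by grind, by grind, by grind⟩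
  by_cases hy : y = 0
  · have : z * (x + z) = 0 := by grind
    rcases mul_eq_zero.1 this with h | h
    · right; right; right; right; right; left; exact ⟨x, by grind, by grind, by grind⟩
    · right; right; right; right; right; right; left; exact ⟨x, by grind, by grind, by grind⟩
  have c1 := (mul_eq_zero.1 h1).resolve_left hx
  have c2 := (mul_eq_zero.1 h2).resolve_left hy
  have h3 : z * ((8 + 0 * i) * x * x + (8 + -4 * i) * x * y + (4 + 0 * i) * x * z + (8 + -4 * i) * y * x + (6 + -8 * i) * y * y + (3 + -4 * i) * y * z + (4 + 0 * i) * z * x + (3 + -4 * i) * z * y) = 0 := by grind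
  rcases mul_eq_zero.1 h3 with hz | c3
  · have : y * (x + y) = 0 := by grind
    left; exact ⟨x, by grind, by grind, by grind⟩
  have n01 : ((2 + 2 * i) * x + (1 + 2 * i) * y + (3 + 4 * i) * z) * ((2 - 2 * i) * x + (3 - 4 * i) * y + (1 - 2 * i) * z) = 0 := by grind
  have n02 : ((2 + 2 * i) * x + (1 + 2 * i) * y + (3 + 4 * i) * z) * (-4 * x + (-2 + i) * y + (-2 - i) * z) = 0 := by grind
  have n12 : ((2 - 2 * i) * x + (3 - 4 * i) * y + (1 - 2 * i) * z) * (-4 * x + (-2 + i) * y + (-2 - i) * z) = 0 := by grind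
  rcases mul_eq_zero.1 n01 with a | b
  · rcases mul_eq_zero.1 n12 with b | c
    · right; right; right; left; exact ⟨-(x + y + z), by grind, by grind, by grind⟩
    · right; right; left; exact ⟨-(x + y + z), by grind, by grind, by grind⟩
  · rcases mul_eq_zero.1 n02 with a | c
    · right; right; right; left; exact ⟨-(x + y + z), by grind, by grind, by grind⟩
    · right; left; exact ⟨-(x + y + z), by grind, by grind, by grind⟩

theorem cvmk (a b : ℤ) : GaussianInt.toComplex (⟨a, b⟩ : Z) = (a : ℂ) + (b : ℂ) * Complex.I :=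
  GaussianInt.toComplex_def' a b

theorem mk_pt (p : V) (k : Fin 9 ⊕ Fin 4) (c : ℂ) (h0 : p 0 = c * cv (Pz k) 0) (h1 : p 1 = c * cv (Pz k) 1)
    (h2 : p 2 = c * cv (Pz k) 2) : ∃ (k : Fin 9 ⊕ Fin 4) (c : ℂ), p = c • cv (Pz k) := by
  refine ⟨k, c, ?_⟩
  funext j; fin_cases j
  · exact h0
  · exact h1
  · exact h2

theorem only (a b : Comp) (hab : a ≠ b) (p : V)
    (ha : On (fun i => cv (Lz i)) (fun i => cm (Mz i)) a p)
    (hb : On (fun i => cv (Lz i)) (fun i => cm (Mz i)) b p) :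
    ∃ (k : Fin 9 ⊕ Fin 4) (c : ℂ), p = c • cv (Pz k) := by
  have hi : Complex.I * Complex.I = -1 := Complex.I_mul_I
  have B := base (p 0) (p 1) (p 2) Complex.I hi
  have B' : p 0 * ((3 + -4 * Complex.I) * p 0 * p 1 + (-3 + -4 * Complex.I) * p 0 * p 2 + (3 + -4 * Complex.I) * p 1 * p 0 + (6 + -8 * Complex.I) * p 1 * p 1 + (0 + -10 * Complex.I) * p 1 * p 2 + (-3 + -4 * Complex.I) * p 2 * p 0 + (0 + -10 * Complex.I) * p 2 * p 1 + (-6 + -8 * Complex.I) * p 2 * p 2) = 0 →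
      p 1 * ((8 + 0 * Complex.I) * p 0 * p 0 + (4 + 0 * Complex.I) * p 0 * p 1 + (8 + 4 * Complex.I) * p 0 * p 2 + (4 + 0 * Complex.I) * p 1 * p 0 + (3 + 4 * Complex.I) * p 1 * p 2 + (8 + 4 * Complex.I) * p 2 * p 0 + (3 + 4 * Complex.I) * p 2 * p 1 + (6 + 8 * Complex.I) * p 2 * p 2) = 0 →
      ∃ (k : Fin 9 ⊕ Fin 4) (c : ℂ), p = c • cv (Pz k) := by
    intro h1 h2
    rcases B h1 h2 with h | h | h | h | h | h | h | h | h <;> obtain ⟨c, e0, e1, e2⟩ := h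
    · refine mk_pt p (.inl 0) c ?_ ?_ ?_ <;> simp [cv, Pz, cvmk, e0, e1, e2]
    · refine mk_pt p (.inl 1) c ?_ ?_ ?_ <;> simp [cv, Pz, cvmk, e0, e1, e2]
    · refine mk_pt p (.inl 2) c ?_ ?_ ?_ <;> simp [cv, Pz, cvmk, e0, e1, e2]
    · refine mk_pt p (.inl 3) c ?_ ?_ ?_ <;> simp [cv, Pz, cvmk, e0, e1, e2]
    · refine mk_pt p (.inl 4) c ?_ ?_ ?_ <;> simp [cv, Pz, cvmk, e0, e1, e2]
    · refine mk_pt p (.inl 5) c ?_ ?_ ?_ <;> simp [cv, Pz, cvmk, e0, e1, e2]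
    · refine mk_pt p (.inl 6) c ?_ ?_ ?_ <;> simp [cv, Pz, cvmk, e0, e1, e2]
    · refine mk_pt p (.inl 7) c ?_ ?_ ?_ <;> simp [cv, Pz, cvmk, e0, e1, e2]
    · refine mk_pt p (.inl 8) c ?_ ?_ ?_ <;> simp [cv, Pz, cvmk, e0, e1, e2]

  have T0 : p 0 = 0 → (3 + -4 * Complex.I) * p 0 * p 1 + (-3 + -4 * Complex.I) * p 0 * p 2 + (3 + -4 * Complex.I) * p 1 * p 0 + (6 + -8 * Complex.I) * p 1 * p 1 + (0 + -10 * Complex.I) * p 1 * p 2 + (-3 + -4 * Complex.I) * p 2 * p 0 + (0 + -10 * Complex.I) * p 2 * p 1 + (-6 + -8 * Complex.I) * p 2 * p 2 = 0 →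
      ∃ (k : Fin 9 ⊕ Fin 4) (c : ℂ), p = c • cv (Pz k) := by
    intro h1 h2
    have : (p 1 * (1 + 2 * Complex.I) + p 2 * (2 + Complex.I)) ^ 2 = 0 := by grind
    have := pow_eq_zero_iff (two_ne_zero) |>.1 this
    refine mk_pt p (.inr 0) (p 2 * (1 - 2 * Complex.I) / 5) ?_ ?_ ?_ <;> simp [cv, Pz, cvmk] <;> grind
  have T1 : p 1 = 0 → (8 + 0 * Complex.I) * p 0 * p 0 + (4 + 0 * Complex.I) * p 0 * p 1 + (8 + 4 * Complex.I) * p 0 * p 2 + (4 + 0 * Complex.I) * p 1 * p 0 + (3 + 4 * Complex.I) * p 1 * p 2 + (8 + 4 * Complex.I) * p 2 * p 0 + (3 + 4 * Complex.I) * p 2 * p 1 + (6 + 8 * Complex.I) * p 2 * p 2 = 0 →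
      ∃ (k : Fin 9 ⊕ Fin 4) (c : ℂ), p = c • cv (Pz k) := by
    intro h1 h2
    have : (p 0 * (2 * Complex.I) - p 2 * (1 - 2 * Complex.I)) ^ 2 = 0 := by grind
    have := pow_eq_zero_iff (two_ne_zero) |>.1 this
    refine mk_pt p (.inr 1) (- p 2 * Complex.I / 2) ?_ ?_ ?_ <;> simp [cv, Pz, cvmk] <;> grind
  have T2 : p 2 = 0 → (8 + 0 * Complex.I) * p 0 * p 0 + (8 + -4 * Complex.I) * p 0 * p 1 + (4 + 0 * Complex.I) * p 0 * p 2 + (8 + -4 * Complex.I) * p 1 * p 0 + (6 + -8 * Complex.I) * p 1 * p 1 + (3 + -4 * Complex.I) * p 1 * p 2 + (4 + 0 * Complex.I) * p 2 * p 0 + (3 + -4 * Complex.I) * p 2 * p 1 = 0 →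
      ∃ (k : Fin 9 ⊕ Fin 4) (c : ℂ), p = c • cv (Pz k) := by
    intro h1 h2
    have : (p 0 * (2 * Complex.I) + p 1 * (1 + 2 * Complex.I)) ^ 2 = 0 := by grind
    have := pow_eq_zero_iff (two_ne_zero) |>.1 this
    refine mk_pt p (.inr 2) (p 1 * Complex.I / 2) ?_ ?_ ?_ <;> simp [cv, Pz, cvmk] <;> grind
  have T3 : p 0 + p 1 + p 2 = 0 → (1 + 0 * Complex.I) * p 0 * p 1 + (-1 + 0 * Complex.I) * p 0 * p 2 + (1 + 0 * Complex.I) * p 1 * p 0 + (0 + 2 * Complex.I) * p 1 * p 2 + (-1 + 0 * Complex.I) * p 2 * p 0 + (0 + 2 * Complex.I) * p 2 * p 1 = 0 →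
      ∃ (k : Fin 9 ⊕ Fin 4) (c : ℂ), p = c • cv (Pz k) := by
    intro h1 h2
    have : (p 1 - p 2 * Complex.I) ^ 2 = 0 := by grind
    have := pow_eq_zero_iff (two_ne_zero) |>.1 this
    refine mk_pt p (.inr 3) (p 2) ?_ ?_ ?_ <;> simp [cv, Pz, cvmk] <;> grind
  rcases a with a | a <;> rcases b with b | b <;> fin_cases a <;> fin_cases b <;>
    first
    | exact absurd rfl hab
    | (simp [On, cv, cm, Lz, Mz, cvmk, mulVec, dotProduct, Fin.sum_univ_three] at ha hb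
       first
       | exact B' (by grind) (by grind)
       | exact T0 (by grind) (by grind)
       | exact T1 (by grind) (by grind)
       | exact T2 (by grind) (by grind)
       | exact T3 (by grind) (by grind))

theorem result :
    ∃ (L : Fin 4 → V) (M : Fin 4 → Matrix (Fin 3) (Fin 3) ℂ) (P : Fin 9 ⊕ Fin 4 → V),
      -- four lines and four smooth conics
      (∀ i, L i ≠ 0) ∧ (∀ i, (M i).IsSymm ∧ (M i).det ≠ 0) ∧
      -- thirteen distinct points of the projective plane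
      (∀ k l, k ≠ l → LinearIndependent ℂ ![P k, P l]) ∧
      -- the nine quadruple points: prescribed incidences, pairwise transversal branches
      (∀ (j : Fin 9) (a : Comp), On L M a (P (.inl j)) ↔ a ∈ inc j) ∧
      (∀ (j : Fin 9), ∀ a ∈ inc j, ∀ b ∈ inc j, a ≠ b →
        LinearIndependent ℂ ![tang L M a (P (.inl j)), tang L M b (P (.inl j))]) ∧
      -- the four tangency points: on `L i` and `C i` only, and `L i` is the tangent line of `C i` there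
      (∀ (i : Fin 4) (a : Comp), On L M a (P (.inr i)) ↔ (a = .inl i ∨ a = .inr i)) ∧
      (∀ i : Fin 4, ∃ c : ℂ, c ≠ 0 ∧ M i *ᵥ P (.inr i) = c • L i) ∧
      -- no other point lies on two components
      (∀ (a b : Comp), a ≠ b → ∀ p : V, On L M a p → On L M b p → ∃ (k : Fin 9 ⊕ Fin 4) (c : ℂ), p = c • P k) := by
  refine ⟨fun i => cv (Lz i), fun i => cm (Mz i), fun k => cv (Pz k), ?_, ?_, ?_, ?_, ?_, ?_, ?_, only⟩
  · intro i h
    have h' : ∀ k, Lz i k = 0 := fun k => by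
      have := congrFun h k
      simp only [cv, Pi.zero_apply] at this
      rw [← inj, map_zero]; exact this
    revert h'; clear h; revert i; decide +kernel
  · intro i
    constructor
    · have : ∀ i, (Mz i).IsSymm := by unfold Matrix.IsSymm; decide +kernel
      exact (this i).map _
    · have h : ∀ i, (Mz i).det ≠ 0 := by simp only [Matrix.det_fin_three]; decide +kernel
      have e : (cm (Mz i)).det = GaussianInt.toComplex (Mz i).det :=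
        (RingHom.map_det GaussianInt.toComplex (Mz i)).symm
      rw [e]; intro h0; exact h i (by rw [← inj, map_zero]; exact h0)
  · intro k l hkl
    have : ∀ k l, k ≠ l → Ind (Pz k) (Pz l) := by decide +kernel
    exact li (this k l hkl)
  · intro j a
    rw [on_cv]; revert j a; decide +kernel
  · intro j a ha b hb hab
    rw [tang_cv, tang_cv]
    have : ∀ (j : Fin 9), ∀ a ∈ inc j, ∀ b ∈ inc j, a ≠ b → Ind (tz a (Pz (.inl j))) (tz b (Pz (.inl j))) := by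
      decide +kernel
    exact li (this j a ha b hb hab)
  · intro i a
    rw [on_cv]; revert i a; decide +kernel
  · intro i
    have h : ∀ i : Fin 4, Lz i ⬝ᵥ (Mz i *ᵥ Pz (.inr i)) ≠ 0 ∧ Lz i ⬝ᵥ Lz i ≠ 0 ∧
        ∀ k, (Lz i ⬝ᵥ Lz i) * (Mz i *ᵥ Pz (.inr i)) k = (Lz i ⬝ᵥ (Mz i *ᵥ Pz (.inr i))) * Lz i k := by
      decide +kernel
    obtain ⟨h1, h2, h3⟩ := h i
    simp only [ne_eq, ← inj, map_zero, map_mul] at h1 h2 h3
    refine ⟨_, div_ne_zero h1 h2, ?_⟩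
    funext k
    simp only [cv_mul, cv, Pi.smul_apply, smul_eq_mul]
    have := h3 k
    field_simp
    linear_combination this

end Pool.Agent.Results.MP_0c03d4_ag.Realizable
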